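import Pool.Agent.H12.ON.Val
import Pool.Agent.H12.OG.Def
import Pool.Agent.H82.NS.Def

/-! # [SF2 (R3)] THEOREM SF, phase 2 (the algorithm, think 1931): elements of the place at infinity are bounded

`L` a function field over `k`, `O` the only place of `L` over `k` without `x`. Every `z ∈ O` satisfies an equation
`∑_{j ≤ N} s_j(x) z^(N-j) = 0`, `s_j ∈ k[X]`, `s_0 ≠ 0`, `deg s_j ≤ deg s_0` (`bd_of_mem`); for `k = ℚ` with `s_j ∈ ℤ[X]` (`bd_int`). -/

namespace Pool.Agent.H12.SF2

open Pool.Agent.H82.NS Pool.Agent.H12.ON Pool.Agent.H12.OG Polynomial IntermediateField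

variable {k L : Type} [Field k] [Field L] [Algebra k L]

/-- the local ring of `k(x)` at infinity, as a subring of `L` -/
private def linf (k : Type) {L : Type} [Field k] [Field L] [Algebra k L] {x : L} (_hx : Transcendental k x) :
    Subring L where
  carrier := {z | ∃ a b : Polynomial k, b ≠ 0 ∧ a.natDegree ≤ b.natDegree ∧ z * aeval x b = aeval x a}
  one_mem' := ⟨1, 1, one_ne_zero, le_rfl, by rw [one_mul]⟩
  zero_mem' := ⟨0, 1, one_ne_zero, by rw [natDegree_zero]; exact Nat.zero_le _, by rw [zero_mul, map_zero]⟩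
  mul_mem' := by
    rintro z w ⟨a, b, hb, hab, h1⟩ ⟨c, d, hd, hcd, h2⟩
    refine ⟨a * c, b * d, mul_ne_zero hb hd, ?_, ?_⟩
    · rw [natDegree_mul hb hd]
      exact natDegree_mul_le.trans (Nat.add_le_add hab hcd)
    · rw [map_mul, map_mul, ← h1, ← h2]
      ring
  add_mem' := by
    rintro z w ⟨a, b, hb, hab, h1⟩ ⟨c, d, hd, hcd, h2⟩
    refine ⟨a * d + c * b, b * d, mul_ne_zero hb hd, ?_, ?_⟩
    · rw [natDegree_mul hb hd]
      refine (natDegree_add_le _ _).trans (max_le ?_ ?_)
      · exact natDegree_mul_le.trans (Nat.add_le_add_right hab _)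
      · exact natDegree_mul_le.trans (by omega)
    · rw [map_mul, map_add, map_mul, map_mul, ← h1, ← h2]
      ring
  neg_mem' := by
    rintro z ⟨a, b, hb, hab, h1⟩
    exact ⟨-a, b, hb, by rwa [natDegree_neg], by rw [neg_mul, h1, map_neg]⟩

private theorem mem_linf {x : L} (hx : Transcendental k x) {z : L} : z ∈ linf k hx ↔
    ∃ a b : Polynomial k, b ≠ 0 ∧ a.natDegree ≤ b.natDegree ∧ z * aeval x b = aeval x a := Iff.rfl

/-- all elements of a valuation ring which contains the local ring at infinity and `x` -/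
private theorem top_of {x : L} (ff : FF k x) {V : ValuationSubring L} (hV : linf k ff.tr ≤ V.toSubring)
    (hx : x ∈ V) (z : L) : z ∈ V := by
  have hk : Ov k V := fun e => hV ((mem_linf ff.tr).2 ⟨C e, 1, one_ne_zero, by rw [natDegree_C]; exact Nat.zero_le _,
    by rw [map_one, mul_one, aeval_C]⟩)
  have hp : ∀ p : Polynomial k, aeval x p ∈ V := fun p => by
    rw [aeval_eq_sum_range]
    refine sum_mem fun i _ => ?_
    rw [Algebra.smul_def]
    exact V.mul_mem _ _ (hk _) (V.pow_mem hx _)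
  have hi : ∀ p : Polynomial k, p ≠ 0 → (aeval x p)⁻¹ ∈ V := by
    intro p hp0
    have h1 : aeval x p ≠ 0 := fun h => hp0 (transcendental_iff.1 ff.tr _ h)
    have h2 : x ^ p.natDegree * (aeval x p)⁻¹ ∈ V := by
      refine hV ((mem_linf ff.tr).2 ⟨X ^ p.natDegree, p, hp0, natDegree_X_pow_le _, ?_⟩)
      rw [map_pow, aeval_X, mul_assoc, inv_mul_cancel₀ h1, mul_one]
    have h3 : (aeval x p)⁻¹ ∈ V := by
      have h4 : (aeval x p)⁻¹ ∈ linf k ff.tr := (mem_linf ff.tr).2 ⟨1, p, hp0,
        by rw [natDegree_one]; exact Nat.zero_le _, by rw [inv_mul_cancel₀ h1, map_one]⟩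
      exact hV h4
    exact h3
  have hK : Ov (k⟮x⟯) V := by
    intro e
    obtain ⟨a, b, h⟩ := IntermediateField.mem_adjoin_simple_iff k e.1 |>.1 e.2
    have h1 : algebraMap (k⟮x⟯) L e = aeval x a / aeval x b := h
    rw [h1, div_eq_mul_inv]
    by_cases hb : b = 0
    · rw [hb, map_zero, inv_zero, mul_zero]
      exact V.zero_mem
    · exact V.mul_mem _ _ (hp a) (hi b hb)
  have := ff.fin
  exact val_alg hK (IsAlgebraic.of_finite (k⟮x⟯) z)

theorem bd_of_mem {x : L} {O : ValuationSubring L} (ff : FF k x)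
    (uni : ∀ V : ValuationSubring L, Inf k x V → V = O) {z : L} (hz : z ∈ O) :
    ∃ (N : ℕ) (s : ℕ → Polynomial k), s 0 ≠ 0 ∧ (∀ j, (s j).natDegree ≤ (s 0).natDegree) ∧
      (∀ j, N < j → s j = 0) ∧ ∑ j ∈ Finset.range (N + 1), aeval x (s j) * z ^ (N - j) = 0 := by
  classical
  have h1 : z ∈ (⨅ V : {V : ValuationSubring L // (linf k ff.tr : Set L) ⊆ V.toSubring}, V.1.toSubring) := by
    rw [Subring.mem_iInf]
    rintro ⟨V, hV⟩
    by_cases hx : x ∈ V
    · exact top_of ff hV hx z
    · have h2 : O = V := (uni V ⟨fun e => hV ((mem_linf ff.tr).2 ⟨C e, 1, one_ne_zero,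
        by rw [natDegree_C]; exact Nat.zero_le _, by rw [map_one, mul_one, aeval_C]⟩), hx⟩).symm
      exact h2 ▸ hz
  rw [iInf_valuationSubring_superset] at h1
  obtain ⟨p, hp, hpz⟩ : IsIntegral (Subring.closure (linf k ff.tr : Set L)) z := h1
  have hc : ∀ i, ((p.coeff i : L)) ∈ linf k ff.tr := by
    intro i
    have h2 := (p.coeff i).2
    have h3 : Subring.closure (linf k ff.tr : Set L) ≤ linf k ff.tr := Subring.closure_le.2 le_rfl
    exact h3 h2
  choose a b hb hab h using fun i => (mem_linf ff.tr).1 (hc i)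
  obtain ⟨N, hN⟩ : ∃ N, N = p.natDegree := ⟨_, rfl⟩
  obtain ⟨B, hB⟩ : ∃ B : Polynomial k, B = ∏ i ∈ Finset.range N, b i := ⟨_, rfl⟩
  have hB0 : B ≠ 0 := by
    rw [hB]
    exact Finset.prod_ne_zero_iff.2 fun i _ => hb i
  obtain ⟨s, hs⟩ : ∃ s : ℕ → Polynomial k, ∀ j, s j = if j = 0 then B else if j ≤ N then
    a (N - j) * ∏ i ∈ (Finset.range N).erase (N - j), b i else 0 := ⟨_, fun _ => rfl⟩
  have hs0 : s 0 = B := by rw [hs, if_pos rfl]
  refine ⟨N, s, by rw [hs0]; exact hB0, ?_, ?_, ?_⟩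
  · intro j
    rw [hs0, hs]
    split_ifs with h1 h2
    · exact le_rfl
    · have h3 : N - j ∈ Finset.range N := Finset.mem_range.2 (by omega)
      rw [hB, ← Finset.mul_prod_erase _ _ h3, natDegree_mul (hb _) (Finset.prod_ne_zero_iff.2 fun i _ => hb i)]
      exact natDegree_mul_le.trans (Nat.add_le_add_right (hab _) _)
    · rw [natDegree_zero]
      exact Nat.zero_le _
  · intro j hj
    rw [hs, if_neg (by omega), if_neg (by omega)]
  · have h2 : ∀ j ∈ Finset.range (N + 1), aeval x (s j) * z ^ (N - j) =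
        aeval x B * ((p.coeff (N - j) : L) * z ^ (N - j)) := by
      intro j hj
      have hj' : j ≤ N := by
        have := Finset.mem_range.1 hj
        omega
      by_cases h0 : j = 0
      · subst h0
        rw [hs0, Nat.sub_zero, hN]
        have h3 : p.coeff p.natDegree = 1 := hp
        rw [h3]
        push_cast
        rw [one_mul]
      · rw [hs, if_neg h0, if_pos hj', map_mul, ← h, map_prod, hB]
        have h3 : N - j ∈ Finset.range N := Finset.mem_range.2 (by omega)
        rw [← Finset.mul_prod_erase _ _ h3, map_mul, map_prod]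
        ring
    rw [Finset.sum_congr rfl h2, ← Finset.mul_sum]
    have h3 : ∑ j ∈ Finset.range (N + 1), ((p.coeff (N - j) : L) * z ^ (N - j)) = 0 := by
      have h4 := Finset.sum_range_reflect (fun i => (p.coeff i : L) * z ^ i) (N + 1)
      have h5 : ∀ j ∈ Finset.range (N + 1), ((p.coeff (N + 1 - 1 - j) : L) * z ^ (N + 1 - 1 - j)) =
          (p.coeff (N - j) : L) * z ^ (N - j) := fun j _ => by rw [Nat.add_sub_cancel]
      rw [Finset.sum_congr rfl h5] at h4
      rw [h4, hN]
      rw [eval₂_eq_sum_range] at hpz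
      exact hpz
    rw [h3, mul_zero]

/-- finitely many rational polynomials times an integer -/
theorem clear {N : ℕ} (s : ℕ → Polynomial ℚ) : ∃ (m : ℤ) (q : ℕ → Polynomial ℤ), m ≠ 0 ∧
    (∀ j, N < j → q j = 0) ∧ ∀ j ≤ N, (q j).map (Int.castRingHom ℚ) = C (m : ℚ) * s j := by
  classical
  have h1 : ∀ p : Polynomial ℚ, ∃ (m : ℤ) (q : Polynomial ℤ), m ≠ 0 ∧ q.map (Int.castRingHom ℚ) = C (m : ℚ) * p := by
    intro p
    obtain ⟨b, hb0, hb⟩ := IsLocalization.integerNormalization_spec (nonZeroDivisors ℤ) p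
    refine ⟨b, IsLocalization.integerNormalization (nonZeroDivisors ℤ) p, mem_nonZeroDivisors_iff_ne_zero.1 hb0, ?_⟩
    have h2 : (Int.castRingHom ℚ) = algebraMap ℤ ℚ := rfl
    rw [h2, hb]
    ext n
    rw [coeff_smul, coeff_C_mul, zsmul_eq_mul]
  choose m q hm hq using fun j => h1 (s j)
  refine ⟨∏ i ∈ Finset.range (N + 1), m i, fun j => if j ≤ N then
    C (∏ i ∈ (Finset.range (N + 1)).erase j, m i) * q j else 0, Finset.prod_ne_zero_iff.2 fun i _ => hm i, ?_, ?_⟩
  · intro j hj
    exact if_neg (by omega)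
  · intro j hj
    have h3 : j ∈ Finset.range (N + 1) := Finset.mem_range.2 (by omega)
    have h4 : (fun j => if j ≤ N then C (∏ i ∈ (Finset.range (N + 1)).erase j, m i) * q j else 0) j =
      C (∏ i ∈ (Finset.range (N + 1)).erase j, m i) * q j := if_pos hj
    rw [h4, Polynomial.map_mul, hq, Polynomial.map_C, ← Finset.mul_prod_erase _ _ h3]
    rw [eq_intCast]
    push_cast
    rw [C_mul]
    ring

theorem bd_int {L : Type} [Field L] [CharZero L] {x : L} {O : ValuationSubring L} (ff : FF ℚ x)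
    (uni : ∀ V : ValuationSubring L, Inf ℚ x V → V = O) {z : L} (hz : z ∈ O) :
    ∃ (N : ℕ) (s : ℕ → Polynomial ℤ), s 0 ≠ 0 ∧ (∀ j, (s j).natDegree ≤ (s 0).natDegree) ∧
      (∀ j, N < j → s j = 0) ∧ ∑ j ∈ Finset.range (N + 1), aeval x (s j) * z ^ (N - j) = 0 := by
  obtain ⟨N, s, h0, h1, h2, h3⟩ := bd_of_mem ff uni hz
  obtain ⟨m, q, hm, hq0, hq⟩ := clear (N := N) s
  have hm' : (m : ℚ) ≠ 0 := by exact_mod_cast hm
  have hinj : Function.Injective (Int.castRingHom ℚ) := Int.cast_injective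
  have hd : ∀ j ≤ N, (q j).natDegree = (s j).natDegree := by
    intro j hj
    rw [← natDegree_map_eq_of_injective hinj, hq j hj, natDegree_C_mul hm']
  refine ⟨N, q, ?_, ?_, hq0, ?_⟩
  · intro h
    have h4 := hq 0 (Nat.zero_le _)
    rw [h, Polynomial.map_zero] at h4
    rcases mul_eq_zero.1 h4.symm with h5 | h5
    · exact hm' (C_eq_zero.1 h5)
    · exact h0 h5
  · intro j
    by_cases hj : j ≤ N
    · rw [hd j hj, hd 0 (Nat.zero_le _)]
      exact h1 j
    · rw [hq0 j (by omega), natDegree_zero]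
      exact Nat.zero_le _
  · have h4 : ∀ j ∈ Finset.range (N + 1), aeval x (q j) * z ^ (N - j) =
        (m : L) * (aeval x (s j) * z ^ (N - j)) := by
      intro j hj
      have hj' : j ≤ N := by
        have := Finset.mem_range.1 hj
        omega
      have h5 : aeval x (q j) = aeval x ((q j).map (Int.castRingHom ℚ)) := by
        rw [← algebraMap_int_eq, aeval_map_algebraMap]
      rw [h5, hq j hj', map_mul, aeval_C]
      rw [map_intCast]
      ring
    rw [Finset.sum_congr rfl h4, ← Finset.mul_sum, h3, mul_zero]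

/-- [SF2 (R4)] an element integral over `ℚ[x]`: leading coefficient a non-zero integer -/
theorem ig_int {L : Type} [Field L] [CharZero L] {x z : L} (hz : IsInt ℚ x z) :
    ∃ (N : ℕ) (s : ℕ → Polynomial ℤ) (e : ℤ), e ≠ 0 ∧ s 0 = C e ∧
      (∀ j, N < j → s j = 0) ∧ ∑ j ∈ Finset.range (N + 1), aeval x (s j) * z ^ (N - j) = 0 := by
  classical
  obtain ⟨p, hp, hpz⟩ := hz
  have hc : ∀ i, ∃ a : Polynomial ℚ, aeval x a = ((p.coeff i : L)) := by
    intro i
    have h2 := (p.coeff i).2
    have h3 : Algebra.adjoin ℚ {x} ≤ (aeval (R := ℚ) x).range := by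
      rw [Algebra.adjoin_singleton_eq_range_aeval]
    exact h3 h2
  choose a ha using hc
  obtain ⟨N, hN⟩ : ∃ N, N = p.natDegree := ⟨_, rfl⟩
  obtain ⟨s, hs⟩ : ∃ s : ℕ → Polynomial ℚ, ∀ j, s j = if j = 0 then 1 else a (N - j) := ⟨_, fun _ => rfl⟩
  obtain ⟨m, q, hm, hq0, hq⟩ := clear (N := N) s
  refine ⟨N, q, m, hm, ?_, hq0, ?_⟩
  · have h1 := hq 0 (Nat.zero_le _)
    rw [hs, if_pos rfl, mul_one] at h1
    have h2 : (C m : Polynomial ℤ).map (Int.castRingHom ℚ) = C (m : ℚ) := by
      rw [Polynomial.map_C, eq_intCast]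
    rw [← h2] at h1
    exact Polynomial.map_injective _ Int.cast_injective h1
  · have h4 : ∀ j ∈ Finset.range (N + 1), aeval x (q j) * z ^ (N - j) =
        (m : L) * ((p.coeff (N - j) : L) * z ^ (N - j)) := by
      intro j hj
      have hj' : j ≤ N := by
        have := Finset.mem_range.1 hj
        omega
      have h5 : aeval x (q j) = aeval x ((q j).map (Int.castRingHom ℚ)) := by
        rw [← algebraMap_int_eq, aeval_map_algebraMap]
      have h6 : aeval x (s j) = (p.coeff (N - j) : L) := by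
        rw [hs]
        split_ifs with h0
        · rw [h0, Nat.sub_zero, hN]
          have h3 : p.coeff p.natDegree = 1 := hp
          rw [h3, map_one]
          rfl
        · exact ha _
      rw [h5, hq j hj', map_mul, aeval_C, h6]
      rw [map_intCast]
      ring
    rw [Finset.sum_congr rfl h4, ← Finset.mul_sum]
    have h3 : ∑ j ∈ Finset.range (N + 1), ((p.coeff (N - j) : L) * z ^ (N - j)) = 0 := by
      have h4 := Finset.sum_range_reflect (fun i => (p.coeff i : L) * z ^ i) (N + 1)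
      have h5 : ∀ j ∈ Finset.range (N + 1), ((p.coeff (N + 1 - 1 - j) : L) * z ^ (N + 1 - 1 - j)) =
          (p.coeff (N - j) : L) * z ^ (N - j) := fun j _ => by rw [Nat.add_sub_cancel]
      rw [Finset.sum_congr rfl h5] at h4
      rw [h4, hN]
      rw [eval₂_eq_sum_range] at hpz
      exact hpz
    rw [h3, mul_zero]

end Pool.Agent.H12.SF2
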