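import Pool.Agent.H12.SF2.Str
import Pool.Agent.H46.SF2.Pas
import Pool.Agent.H98.AL.Complete

/-! # [SF2] The certificate of type 0: no real place at infinity

`cer0_star`: `Star 1 G` gives `Cer0 G Z` for some `Z` (`H98.AL.complete`; a real polynomial without real zeros is bounded below). `cer0_of`. -/

namespace Pool.Agent.H12.SF2

open Pool.Agent.H12.ON Pool.Agent.H12.OG Pool.Agent.H82.NS Pool.Agent.H12.SF Pool.Agent.H46.SF Pool.Agent.H8.OA
  Pool.Agent.H46.SF2 Pool.Agent.H98.AL Pool.Agent.H85.SA IntermediateField Filter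

/-- a polynomial without real zeros is bounded below -/
theorem low_p {p : Polynomial ℤ} (hp : ∀ r : ℝ, Polynomial.aeval r p ≠ 0) :
    ∃ Z : ℕ, ∀ r : ℝ, 1 ≤ Z * |Polynomial.aeval r p| := by
  have hev : ∀ r : ℝ, Polynomial.aeval r p = (p.map (Int.castRingHom ℝ)).eval r := fun r => by
    rw [Polynomial.eval_map, Polynomial.aeval_def]
    rfl
  have hmin : ∃ r₀ : ℝ, ∀ r : ℝ, |Polynomial.aeval r₀ p| ≤ |Polynomial.aeval r p| := by
    by_cases hd : 0 < (p.map (Int.castRingHom ℝ)).degree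
    · have h1 : Tendsto (fun r : ℝ => ‖(p.map (Int.castRingHom ℝ)).eval r‖) (cocompact ℝ) atTop :=
        Polynomial.tendsto_norm_atTop _ hd tendsto_norm_cocompact_atTop
      have h2 : Continuous fun r : ℝ => ‖(p.map (Int.castRingHom ℝ)).eval r‖ :=
        (Polynomial.continuous _).norm
      obtain ⟨r₀, h3⟩ := h2.exists_forall_le h1
      refine ⟨r₀, fun r => ?_⟩
      rw [hev, hev, ← Real.norm_eq_abs, ← Real.norm_eq_abs]
      exact h3 r
    · have h1 : p.map (Int.castRingHom ℝ) = Polynomial.C ((p.map (Int.castRingHom ℝ)).coeff 0) :=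
        Polynomial.eq_C_of_degree_le_zero (not_lt.1 hd)
      refine ⟨0, fun r => ?_⟩
      rw [hev, hev, h1, Polynomial.eval_C, Polynomial.eval_C]
  obtain ⟨r₀, h0⟩ := hmin
  have h1 : 0 < |Polynomial.aeval r₀ p| := abs_pos.2 (hp r₀)
  obtain ⟨Z, hZ⟩ := exists_nat_gt (1 / |Polynomial.aeval r₀ p|)
  refine ⟨Z, fun r => ?_⟩
  have h2 : 1 < Z * |Polynomial.aeval r₀ p| := by
    rwa [div_lt_iff₀ h1] at hZ
  have h3 : (Z : ℝ) * |Polynomial.aeval r₀ p| ≤ Z * |Polynomial.aeval r p| :=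
    mul_le_mul_of_nonneg_left (h0 r) (Nat.cast_nonneg Z)
  exact (h2.trans_le h3).le

/-- the coefficients are bounded -/
theorem cf_bd (F : P2) : ∃ Z : ℕ, ∀ t, |MvPolynomial.coeff t F| ≤ (Z : ℤ) := by
  refine ⟨F.support.sup fun t => (MvPolynomial.coeff t F).natAbs, fun t => ?_⟩
  by_cases h : t ∈ F.support
  · have h1 : (MvPolynomial.coeff t F).natAbs ≤ F.support.sup fun t => (MvPolynomial.coeff t F).natAbs :=
      Finset.le_sup (f := fun t => (MvPolynomial.coeff t F).natAbs) h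
    rw [Int.abs_eq_natAbs]
    exact_mod_cast h1
  · rw [MvPolynomial.notMem_support_iff.1 h, abs_zero]
    positivity

theorem cer0_star {G : P2} (hG : Irreducible (MvPolynomial.map (Int.castRingHom ℚ) G)) (h : Star 1 G) :
    ∃ Z, Cer0 G Z := by
  obtain ⟨p, c, s, e, m, N, Q, R, hC⟩ := complete hG h
  obtain ⟨Z1, h1⟩ := low_p hC.nr
  obtain ⟨Z2, h2⟩ := cf_bd (shf c G)
  obtain ⟨Z3, h3⟩ := cf_bd R
  have h4 : ∀ᶠ Z in atTop, Sz Z p := sz_ev p
  obtain ⟨Z, hZ, hZ1⟩ := (h4.and (eventually_ge_atTop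
    (Z1 + Z2 + Z3 + c + s + e + m + (shf c G).totalDegree + R.totalDegree))).exists
  refine ⟨Z, p, c, s, e, m, N, Q, R, hC, fun r => ?_, by omega, by omega, by omega, by omega, hZ, by omega,
    fun t => (h2 t).trans (by exact_mod_cast (by omega : Z2 ≤ Z)), by omega,
    fun t => (h3 t).trans (by exact_mod_cast (by omega : Z3 ≤ Z))⟩
  refine (h1 r).trans (mul_le_mul_of_nonneg_right ?_ (abs_nonneg _))
  exact_mod_cast (by omega : Z1 ≤ Z)

theorem cer0_of {G : MvPolynomial (Fin 2) ℤ} {L : Type} [Field L] [CharZero L] {x y : L} {d c : ℕ}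
    {f : Polynomial (Polynomial ℚ)} (w : Wq G x y d c f)
    (h : ∀ V : ValuationSubring L, Inf ℚ (x + c * y) V → IsEmpty (IsLocalRing.ResidueField V →+* ℝ)) :
    ∃ Z, Cer0 G Z := cer0_star w.ir (star_of w h)

end Pool.Agent.H12.SF2
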