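import Pool.Agent.H12.SF2.Str

/-! # [SF2] Only one place at infinity: `OnePlace G`

`one_of_uni`: if `O` is the only place at infinity of the world `w`, then `OnePlace G`. -/

namespace Pool.Agent.H12.SF2

open Pool.Agent.H12.ON Pool.Agent.H12.OG Pool.Agent.H82.NS Pool.Agent.H12.SF Pool.Agent.H46.SF Pool.Agent.H8.OA
  Pool.Agent.H46.SF2 Pool.Agent.H98.AL Pool.Agent.H85.SA IntermediateField

variable {G : MvPolynomial (Fin 2) ℤ} {L : Type} [Field L] [CharZero L] {x y : L} {d c : ℕ}
  {f : Polynomial (Polynomial ℚ)}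

/-- a point of the curve, not in `V`, in a field `E` with a valuation ring `V` over `ℚ`, gives an embedding -/
theorem emb_val (w : Wq G x y d c f) {E : Type} [Field E] [CharZero E] {V : ValuationSubring E} (hO : Ov ℚ V)
    {X Y : E} (h0 : MvPolynomial.eval₂ (Int.castRingHom E) ![X, Y] G = 0) (hXY : ¬ (X ∈ V ∧ Y ∈ V)) :
    (X + c * Y ∉ V) ∧ ∃ j : L →ₐ[ℚ] E, j x = X ∧ j y = Y := by
  have h1 : MvPolynomial.aeval ![X, Y] (MvPolynomial.map (Int.castRingHom ℚ) G) = 0 := by
    rw [← h0, MvPolynomial.aeval_def, MvPolynomial.eval₂_map]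
    congr 1
    exact Subsingleton.elim _ _
  have hd' : (MvPolynomial.map (Int.castRingHom ℚ) G).totalDegree ≤ d := by
    rw [← w.gd]
    exact Finset.sup_mono (MvPolynomial.support_map_subset (Int.castRingHom ℚ) G)
  have hx := cor_x hd' w.ct h1
  have hy := cor_y hd' w.ct h1
  have hcx : algebraMap ℚ E (c : ℚ) = (c : E) := map_natCast _ c
  rw [hcx] at hx hy
  have hT : X + c * Y ∉ V := fun h => hXY ⟨int_val hx hO h, int_val hy hO h⟩
  have htr : Transcendental ℚ (X + c * Y) := fun h => hT (val_alg hO h)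
  exact ⟨hT, emb_gen hd' w.ir w.ct w.gen w.z w.md h1 htr⟩

theorem one_of_uni (w : Wq G x y d c f) {O : ValuationSubring L}
    (huni : ∀ V : ValuationSubring L, Inf ℚ (x + c * y) V → V = O) : OnePlace G := by
  intro L' _ _ x' y' h0 hgen V' W' hr hV hW
  have hOV : Ov ℚ V' := fun e => (hr e).1
  have hOW : Ov ℚ W' := fun e => (hr e).2
  obtain ⟨hTV, j, hjx, hjy⟩ := emb_val w hOV h0 hV
  obtain ⟨hTW, -⟩ := emb_val w hOW h0 hW
  have hsur : Function.Surjective j := by
    have h1 : IntermediateField.adjoin ℚ {x', y'} ≤ j.fieldRange := by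
      rw [IntermediateField.adjoin_le_iff]
      rintro a (rfl | rfl)
      · exact ⟨x, hjx⟩
      · exact ⟨y, hjy⟩
    rw [hgen] at h1
    intro a
    exact h1 (IntermediateField.mem_top (x := a))
  have hjt : j (x + c * y) = x' + c * y' := by
    rw [map_add, map_mul, map_natCast, hjx, hjy]
  have key : ∀ U : ValuationSubring L', Ov ℚ U → x' + c * y' ∉ U → U.comap j.toRingHom = O := by
    intro U hU hTU
    refine huni _ ⟨fun e => ?_, fun h => hTU ?_⟩
    · rw [ValuationSubring.mem_comap]
      have h2 : j.toRingHom (algebraMap ℚ L e) = algebraMap ℚ L' e := j.commutes e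
      rw [h2]
      exact hU e
    · rw [ValuationSubring.mem_comap] at h
      have h2 : j.toRingHom (x + c * y) = x' + c * y' := hjt
      rwa [h2] at h
  have h1 := key V' hOV hTV
  have h2 := key W' hOW hTW
  refine SetLike.ext fun a => ?_
  obtain ⟨b, rfl⟩ := hsur a
  have h3 : b ∈ V'.comap j.toRingHom ↔ b ∈ W'.comap j.toRingHom := by rw [h1, h2]
  rw [ValuationSubring.mem_comap, ValuationSubring.mem_comap] at h3
  exact h3

end Pool.Agent.H12.SF2
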