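import Pool.Agent.H12.SF2.Wq
import Pool.Agent.H12.ON.Val
import Pool.Agent.H46.SF2.Gq
import Pool.Agent.H85.SA.Stm

/-! # [SF2] The world over `ℚ`: places at infinity, Riemann's inequality, the plane model

`w : Wq G x y d c f` (Wq.lean), `t = x + c y`.
`inf_iff`: the places at infinity are the valuation rings over `ℚ` which do not contain both `x` and `y`.
`inf_ex`: there is one. `one_inf`: `OnePlace G` gives the only one. `ri_w`: Riemann's inequality for `t`. `fld_w`: the plane model of helper46. -/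

namespace Pool.Agent.H12.SF2

open Pool.Agent.H12.ON Pool.Agent.H12.OG Pool.Agent.H82.NS Pool.Agent.H12.SF Pool.Agent.H46.SF Pool.Agent.H8.OA
  Pool.Agent.H46.SF2 Pool.Agent.H98.AL Pool.Agent.H85.SA IntermediateField

variable {G : MvPolynomial (Fin 2) ℤ} {L : Type} [Field L] [CharZero L] {x y : L} {d c : ℕ}
  {f : Polynomial (Polynomial ℚ)}

theorem inf_iff (w : Wq G x y d c f) {V : ValuationSubring L} :
    Inf ℚ (x + c * y) V ↔ Ov ℚ V ∧ ¬ (x ∈ V ∧ y ∈ V) := by
  constructor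
  · rintro ⟨h1, h2⟩
    refine ⟨h1, fun h => h2 ?_⟩
    exact V.add_mem _ _ h.1 (V.mul_mem _ _ (natCast_mem V c) h.2)
  · rintro ⟨h1, h2⟩
    refine ⟨h1, fun h => h2 ⟨?_, ?_⟩⟩
    · exact int_val w.ix h1 h
    · exact int_val w.iy h1 h

theorem inf_ex (w : Wq G x y d c f) : ∃ O : ValuationSubring L, Inf ℚ (x + c * y) O := by
  obtain ⟨V, h1, h2⟩ := exists_inf w.ff.tr
  exact ⟨V, h1, h2⟩

theorem one_inf (w : Wq G x y d c f) (h1 : OnePlace G) :
    ∃ O : ValuationSubring L, Inf ℚ (x + c * y) O ∧ ∀ V : ValuationSubring L, Inf ℚ (x + c * y) V → V = O := by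
  obtain ⟨O, hO⟩ := inf_ex w
  refine ⟨O, hO, fun V hV => ?_⟩
  have h2 := (inf_iff w).1 hO
  have h3 := (inf_iff w).1 hV
  exact h1 L x y w.z' w.gen V O (fun r => ⟨h3.1 r, h2.1 r⟩) h3.2 h2.2

theorem ri_w (w : Wq G x y d c f) {g : ℕ} (hg : Pool.Agent.H85.SF.GenusLE G g) : Ri ℚ (x + c * y) d g := by
  intro M
  obtain ⟨m, φ, h1, h2, h3⟩ := hg L x y w.z' w.gen (x + c * y) w.ff.tr M
  have h4 : Module.finrank (IntermediateField.adjoin ℚ {x + c * y}) L = d := w.fin
  rw [h4] at h3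
  have hle : d * M + 1 - g ≤ m := by
    rw [mul_comm M d] at h3
    omega
  exact ⟨fun i => φ (Fin.castLE hle i), h1.comp _ (Fin.castLE_injective hle), fun i => ⟨(h2 _).1, (h2 _).2⟩⟩

theorem fld_w (w : Wq G x y d c f) : Fld (shf c G) (x + c * y) y := by
  refine fld_of w.ir ?_ w.ct w.gen w.z' w.ff.tr
  rw [← w.gd]
  exact Finset.sup_mono (MvPolynomial.support_map_subset (Int.castRingHom ℚ) G)

end Pool.Agent.H12.SF2
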