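import Pool.Agent.H12.SF2.Pla
import Pool.Agent.H46.SF.Emt

/-! # [SF2] No real place at infinity: `Star 1 G`; a point with values in `L'((T))` is an embedding

`VT F`: the valuation ring `F[[T]]` of `F((T))`. `emb_pt`: a point `(X,Y)` of the curve `G = 0` over `F((T))`, not both in `F[[T]]`, gives an
embedding of the function field. `plc_pt`: it gives a place `V` at infinity and a homomorphism of the residue field of `V` to `F`.
`star_of`: if no place at infinity has a real residue field, then `Star 1 G`. -/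

namespace Pool.Agent.H12.SF2

open Pool.Agent.H12.ON Pool.Agent.H12.OG Pool.Agent.H82.NS Pool.Agent.H12.SF Pool.Agent.H46.SF Pool.Agent.H8.OA
  Pool.Agent.H46.SF2 Pool.Agent.H98.AL Pool.Agent.H85.SA IntermediateField

open scoped LaurentSeries in
/-- the valuation ring `F[[T]]` of `F((T))` -/
noncomputable def VT (F : Type) [Field F] : ValuationSubring (LaurentSeries F) :=
  (Valued.v : Valuation (LaurentSeries F) (WithZero (Multiplicative ℤ))).valuationSubring

theorem mem_vt {F : Type} [Field F] {a : LaurentSeries F} :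
    a ∈ VT F ↔ a ∈ (HahnSeries.ofPowerSeries ℤ F).range := by
  unfold VT
  rw [Valuation.mem_valuationSubring_iff, LaurentSeries.val_le_one_iff_eq_coe]
  rfl

theorem ov_vt {k F : Type} [Field k] [Field F] [Algebra k F] [Algebra k (LaurentSeries F)]
    (h : ∀ e : k, algebraMap k (LaurentSeries F) e = HahnSeries.ofPowerSeries ℤ F (PowerSeries.C (algebraMap k F e))) :
    Ov k (VT F) := fun e => mem_vt.2 ⟨_, (h e).symm⟩

/-- both conditions for an embedding -/
theorem dvd_sbp {k L : Type} [Field k] [Field L] [Algebra k L] {G' : MvPolynomial (Fin 2) k} {x y : L} {d c : ℕ}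
    {f : Polynomial (Polynomial k)} (hi : Irreducible G') (h0 : MvPolynomial.aeval ![x, y] G' = 0)
    (hM : Mod k (x + c * y) y d f) (P : MvPolynomial (Fin 2) k) :
    MvPolynomial.aeval ![x, y] P = 0 ↔ sbp c G' ∣ sbp c P := by
  have h1 : f ∣ sbp c G' := (mod_div hM).1 (by rw [sbp_evp, h0])
  have hfu : ¬ IsUnit f := fun hu => by
    have h2 := hM.deg
    have h3 := hM.d1
    have h4 := Polynomial.natDegree_eq_zero_of_isUnit hu
    omega
  have h2 : Associated f (sbp c G') := by
    obtain ⟨u, hu⟩ := h1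
    rcases (sbp_irr hi).isUnit_or_isUnit hu with h3 | h3
    · exact absurd h3 hfu
    · obtain ⟨v, rfl⟩ := h3
      exact ⟨v, hu.symm⟩
  rw [← h2.dvd_iff_dvd_left, ← mod_div hM, sbp_evp]

/-- a generic point gives an embedding of the function field -/
theorem emb_gen {k L E : Type} [Field k] [Field L] [Algebra k L] [Field E] [Algebra k E] {G' : MvPolynomial (Fin 2) k}
    {x y : L} {d c : ℕ} {f : Polynomial (Polynomial k)} (hd : G'.totalDegree ≤ d) (hi : Irreducible G')
    (hc : tpf d G' (c : k) ≠ 0) (hgen : IntermediateField.adjoin k {x, y} = ⊤)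
    (h0 : MvPolynomial.aeval ![x, y] G' = 0) (hM : Mod k (x + c * y) y d f) {X Y : E}
    (h1 : MvPolynomial.aeval ![X, Y] G' = 0) (htr : Transcendental k (X + c * Y)) :
    ∃ j : L →ₐ[k] E, j x = X ∧ j y = Y := by
  obtain ⟨x', y', f', hx', hy', hgen', h0', hM'⟩ := mod_in hd hi hc h1 htr
  have hcomp : ∀ P : MvPolynomial (Fin 2) k, MvPolynomial.aeval ![X, Y] P =
      ((MvPolynomial.aeval ![x', y'] P : IntermediateField.adjoin k {X, Y}) : E) := by
    intro P
    have h2 : (![X, Y] : Fin 2 → E) = algebraMap (IntermediateField.adjoin k {X, Y}) E ∘ ![x', y'] := by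
      funext i
      fin_cases i
      · exact hx'.symm
      · exact hy'.symm
    rw [h2, MvPolynomial.aeval_algebraMap_apply]
    rfl
  exact emb_xy hgen (fun P => by
    rw [dvd_sbp hi h0 hM, ← dvd_sbp hi h0' hM', hcomp]
    constructor
    · intro h2
      rw [h2]
      rfl
    · intro h2
      exact Subtype.coe_injective h2)

variable {G : MvPolynomial (Fin 2) ℤ} {L : Type} [Field L] [CharZero L] {x y : L} {d c : ℕ}
  {f : Polynomial (Polynomial ℚ)}

theorem emb_pt (w : Wq G x y d c f) {F : Type} [Field F] [CharZero F] {X Y : LaurentSeries F}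
    (h0 : MvPolynomial.eval₂ (Int.castRingHom (LaurentSeries F)) ![X, Y] G = 0) (hXY : ¬ (X ∈ VT F ∧ Y ∈ VT F)) :
    ∃ j : L →+* LaurentSeries F, j x = X ∧ j y = Y := by
  have h1 : MvPolynomial.aeval ![X, Y] (MvPolynomial.map (Int.castRingHom ℚ) G) = 0 := by
    rw [← h0, MvPolynomial.aeval_def, MvPolynomial.eval₂_map]
    congr 1
    exact Subsingleton.elim _ _
  have hO : Ov ℚ (VT F) := ov_vt fun e => by
    have h2 : algebraMap ℚ (LaurentSeries F) = (HahnSeries.ofPowerSeries ℤ F).comp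
      ((PowerSeries.C (R := F)).comp (algebraMap ℚ F)) := Subsingleton.elim _ _
    exact congrArg (fun φ => φ e) h2
  have hd' : (MvPolynomial.map (Int.castRingHom ℚ) G).totalDegree ≤ d := by
    rw [← w.gd]
    exact Finset.sup_mono (MvPolynomial.support_map_subset (Int.castRingHom ℚ) G)
  have hx := cor_x hd' w.ct h1
  have hy := cor_y hd' w.ct h1
  have hcx : algebraMap ℚ (LaurentSeries F) (c : ℚ) = (c : LaurentSeries F) := map_natCast _ c
  rw [hcx] at hx hy
  have hT : X + c * Y ∉ VT F := fun h => hXY ⟨int_val hx hO h, int_val hy hO h⟩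
  have htr : Transcendental ℚ (X + c * Y) := fun h => hT (val_alg hO h)
  obtain ⟨j, hjx, hjy⟩ := emb_gen hd' w.ir w.ct w.gen w.z w.md h1 htr
  exact ⟨j.toRingHom, hjx, hjy⟩

/-- a point in `F((T))`, not in `F[[T]]`, gives a place at infinity with residue field in `F` -/
theorem plc_pt (w : Wq G x y d c f) {F : Type} [Field F] [CharZero F] {X Y : LaurentSeries F}
    (h0 : MvPolynomial.eval₂ (Int.castRingHom (LaurentSeries F)) ![X, Y] G = 0)
    (hXY : ¬ (X ∈ VT F ∧ Y ∈ VT F)) :
    ∃ V : ValuationSubring L, Inf ℚ (x + c * y) V ∧ Nonempty (IsLocalRing.ResidueField V →+* F) := by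
  obtain ⟨j, hx, hy⟩ := emb_pt w h0 hXY
  obtain ⟨V, hV⟩ : ∃ V : ValuationSubring L, V = (VT F).comap j := ⟨_, rfl⟩
  have hmem : ∀ a, a ∈ V ↔ j a ∈ VT F := fun a => by
    rw [hV]
    exact ValuationSubring.mem_comap
  refine ⟨V, (inf_iff w).2 ⟨fun e => (hmem _).2 ?_, fun h => hXY ?_⟩, ?_⟩
  · have h1 : Ov ℚ (VT F) := ov_vt fun e => by
      have h2 : algebraMap ℚ (LaurentSeries F) = (HahnSeries.ofPowerSeries ℤ F).comp
        ((PowerSeries.C (R := F)).comp (algebraMap ℚ F)) := Subsingleton.elim _ _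
      exact congrArg (fun φ => φ e) h2
    have h2 : j (algebraMap ℚ L e) = algebraMap ℚ (LaurentSeries F) e := by
      have h3 : j.comp (algebraMap ℚ L) = algebraMap ℚ (LaurentSeries F) := Subsingleton.elim _ _
      exact congrArg (fun φ => φ e) h3
    rw [h2]
    exact h1 e
  · have h1 := (hmem _).1 h.1
    have h2 := (hmem _).1 h.2
    rw [hx] at h1
    rw [hy] at h2
    exact ⟨h1, h2⟩
  · -- the residue
    have hinj : Function.Injective (HahnSeries.ofPowerSeries ℤ F) := HahnSeries.ofPowerSeries_injective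
    obtain ⟨e, he⟩ : ∃ e : PowerSeries F ≃+* (HahnSeries.ofPowerSeries ℤ F).range,
        ∀ a, ((e a : (HahnSeries.ofPowerSeries ℤ F).range) : LaurentSeries F) = HahnSeries.ofPowerSeries ℤ F a :=
      ⟨RingEquiv.ofLeftInverse (f := HahnSeries.ofPowerSeries ℤ F) (g := Function.invFun (HahnSeries.ofPowerSeries ℤ F))
        (Function.leftInverse_invFun hinj), fun a => rfl⟩
    obtain ⟨ψ, hψ⟩ : ∃ ψ : V →+* (HahnSeries.ofPowerSeries ℤ F).range, ∀ a : V, ((ψ a :
        (HahnSeries.ofPowerSeries ℤ F).range) : LaurentSeries F) = j a :=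
      ⟨(j.comp V.subtype).codRestrict (HahnSeries.ofPowerSeries ℤ F).range fun a => mem_vt.1 ((hmem _).1 a.2),
        fun a => rfl⟩
    obtain ⟨φ, hφ⟩ : ∃ φ : V →+* F, ∀ a, φ a = PowerSeries.constantCoeff (e.symm (ψ a)) :=
      ⟨(PowerSeries.constantCoeff).comp ((e.symm : _ →+* PowerSeries F).comp ψ), fun a => rfl⟩
    have hloc : IsLocalHom φ := by
      refine ⟨fun a ha => ?_⟩
      rw [hφ, isUnit_iff_ne_zero] at ha
      have h1 : IsUnit (e.symm (ψ a)) := by
        rw [PowerSeries.isUnit_iff_constantCoeff]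
        exact isUnit_iff_ne_zero.2 ha
      obtain ⟨u, hu⟩ := h1
      have h2 : HahnSeries.ofPowerSeries ℤ F (e.symm (ψ a)) = j a := by
        rw [← he, RingEquiv.apply_symm_apply, hψ]
      have h3 : (j a)⁻¹ = HahnSeries.ofPowerSeries ℤ F ((u⁻¹ : (PowerSeries F)ˣ) : PowerSeries F) := by
        rw [← h2, ← hu]
        apply inv_eq_of_mul_eq_one_right
        rw [← map_mul, Units.mul_inv, map_one]
      have h4 : (a : L)⁻¹ ∈ V := by
        rw [hmem, map_inv₀, h3]
        exact mem_vt.2 ⟨_, rfl⟩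
      have h5 : (a : L) ≠ 0 := by
        intro h6
        rw [h6, map_zero] at h2
        have h7 : e.symm (ψ a) = 0 := hinj (h2.trans (map_zero _).symm)
        apply ha
        rw [h7, map_zero]
      exact IsUnit.of_mul_eq_one ⟨(a : L)⁻¹, h4⟩ (Subtype.ext (mul_inv_cancel₀ h5))
    exact ⟨IsLocalRing.ResidueField.lift φ⟩

/-- no place at infinity has a real residue field -/
theorem star_of (w : Wq G x y d c f) (h : ∀ V : ValuationSubring L, Inf ℚ (x + c * y) V →
    IsEmpty (IsLocalRing.ResidueField V →+* ℝ)) : Star 1 G := by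
  rintro K _ _ ⟨ρ⟩ X Y h0
  left
  by_contra hXY
  have hXY' : ¬ (X ∈ VT K ∧ Y ∈ VT K) := fun h1 => hXY ⟨mem_vt.1 h1.1, mem_vt.1 h1.2⟩
  obtain ⟨V, hV, ⟨φ⟩⟩ := plc_pt w h0 hXY'
  exact (h V hV).false (ρ.comp φ)

end Pool.Agent.H12.SF2
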