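import Pool.Agent.H46.SF.Std
import Pool.Agent.H8.OA.LDa

/-! # [SF2] The function field over `ℚ` of an absolutely irreducible curve

`Wq G x y d c f`: `L = ℚ(x,y)`, `G(x,y) = 0`, `t = x + c y` transcendental, `[L : ℚ(t)] = d = deg G`, `f = G(X - cY, Y)` made monic
in `Y` (`Mod`), `x`, `y` integral over `ℚ[t]`, `ℚ` algebraically closed in `L`. `wq_ex`: it exists if `G` is irreducible over an algebraically
closed field (`AlgebraicClosure ℚ` or `ℂ`).
`mod_div`: `f` divides every polynomial which vanishes at `(t,y)`. `ker_dvd`: the same for `G`. -/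

namespace Pool.Agent.H12.SF2

open Pool.Agent.H12.ON Pool.Agent.H12.OG Pool.Agent.H82.NS Pool.Agent.H12.SF Pool.Agent.H46.SF Pool.Agent.H8.OA
  IntermediateField

/-- the function field of `G = 0` over `ℚ` with the function `t = x + c y` -/
structure Wq (G : MvPolynomial (Fin 2) ℤ) {L : Type} [Field L] [CharZero L] (x y : L) (d c : ℕ)
    (f : Polynomial (Polynomial ℚ)) : Prop where
  gd : G.totalDegree = d
  d1 : 1 ≤ d
  ir : Irreducible (MvPolynomial.map (Int.castRingHom ℚ) G)
  z : MvPolynomial.aeval ![x, y] (MvPolynomial.map (Int.castRingHom ℚ) G) = 0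
  z' : MvPolynomial.eval₂ (Int.castRingHom L) ![x, y] G = 0
  gen : IntermediateField.adjoin ℚ {x, y} = ⊤
  cd : c ≤ d
  ct : tpf d (MvPolynomial.map (Int.castRingHom ℚ) G) (c : ℚ) ≠ 0
  md : Mod ℚ (x + c * y) y d f
  ff : FF ℚ (x + c * y)
  fin : Module.finrank ℚ⟮x + c * y⟯ L = d
  ix : IsInt ℚ (x + c * y) x
  iy : IsInt ℚ (x + c * y) y
  rc : RelCl ℚ L

/-- a polynomial of degree `< d` in `Y` which vanishes at `(t,y)` is zero -/
theorem mod_zero {k L : Type} [Field k] [Field L] [Algebra k L] {t y : L} {d : ℕ} {f : Polynomial (Polynomial k)}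
    (h : Mod k t y d f) {R : Polynomial (Polynomial k)} (hR : R.natDegree < d) (h0 : evp t y R = 0) : R = 0 := by
  obtain ⟨hint, hmin⟩ := mod_min h
  have hdeg : (minpoly k⟮t⟯ y).natDegree = d := by
    have h1 := congrArg Polynomial.natDegree hmin
    rw [Polynomial.natDegree_map, h.mon.natDegree_map, h.deg] at h1
    exact h1
  obtain ⟨ι, hι⟩ : ∃ ι : Polynomial k →+* k⟮t⟯, ι = (Polynomial.aeval (AdjoinSimple.gen k t) :
    Polynomial k →ₐ[k] k⟮t⟯).toRingHom := ⟨_, rfl⟩
  have hcomp : (algebraMap k⟮t⟯ L).comp ι = (Polynomial.aeval t : Polynomial k →ₐ[k] L).toRingHom := by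
    refine RingHom.ext fun g => ?_
    rw [hι]
    show algebraMap k⟮t⟯ L (Polynomial.aeval (AdjoinSimple.gen k t) g) = Polynomial.aeval t g
    rw [← Polynomial.aeval_algebraMap_apply]
    rfl
  have hinj : Function.Injective ι := by
    have h1 : Function.Injective ((algebraMap k⟮t⟯ L) ∘ ι) := by
      rw [← RingHom.coe_comp, hcomp]
      exact transcendental_iff_injective.1 h.tr
    exact Function.Injective.of_comp h1
  by_contra hne
  have h1 : Polynomial.aeval y (R.map ι) = 0 := by
    rw [Polynomial.aeval_def, Polynomial.eval₂_map, hcomp]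
    exact h0
  have h2 : R.map ι ≠ 0 := (Polynomial.map_ne_zero_iff hinj).2 hne
  have h3 := Polynomial.natDegree_le_of_dvd (minpoly.dvd k⟮t⟯ y h1) h2
  rw [hdeg, Polynomial.natDegree_map_eq_of_injective hinj] at h3
  omega

theorem mod_div {k L : Type} [Field k] [Field L] [Algebra k L] {t y : L} {d : ℕ} {f : Polynomial (Polynomial k)}
    (h : Mod k t y d f) {R : Polynomial (Polynomial k)} : evp t y R = 0 ↔ f ∣ R := by
  constructor
  · intro h0
    have h1 := Polynomial.modByMonic_add_div R f
    have h2 : evp t y (R %ₘ f) = 0 := by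
      rw [← h1, map_add, map_mul, h.root, zero_mul, add_zero] at h0
      exact h0
    have h3 : R %ₘ f = 0 := by
      refine mod_zero h ?_ h2
      have h4 := Polynomial.natDegree_modByMonic_lt R h.mon (by
        intro h5
        have h6 := h.deg
        have h7 := h.d1
        rw [h5, Polynomial.natDegree_one] at h6
        omega)
      rwa [h.deg] at h4
    exact (Polynomial.modByMonic_eq_zero_iff_dvd h.mon).1 h3
  · rintro ⟨Q, rfl⟩
    rw [map_mul, h.root, zero_mul]

/-- every element of `L` is `A(t,y)/D(t)`, `deg_Y A < d` -/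
theorem mod_rep {k L : Type} [Field k] [Field L] [Algebra k L] {t y : L} {d : ℕ} {f : Polynomial (Polynomial k)}
    (h : Mod k t y d f) (z : L) : ∃ (D : Polynomial k) (A : Polynomial (Polynomial k)), D ≠ 0 ∧ A.natDegree < d ∧
      z * Polynomial.aeval t D = evp t y A := by
  classical
  obtain ⟨hint, hmin⟩ := mod_min h
  have hfd := (mod_fin h).1
  have htop : IntermediateField.adjoin k⟮t⟯ {y} = ⊤ := by
    have h1 := IntermediateField.adjoin_simple_adjoin_simple k t y
    rw [h.gen] at h1
    rw [eq_top_iff]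
    intro z _
    have h2 : z ∈ (k⟮t⟯⟮y⟯).restrictScalars k := by
      rw [h1]
      trivial
    exact h2
  -- a polynomial over `k(t)`
  have hz : z ∈ (IntermediateField.adjoin k⟮t⟯ {y}).toSubalgebra := by
    rw [htop]
    trivial
  rw [IntermediateField.adjoin_simple_toSubalgebra_of_isAlgebraic hint.isAlgebraic,
    Algebra.adjoin_singleton_eq_range_aeval] at hz
  obtain ⟨P, hP⟩ := hz
  have hP' : Polynomial.aeval y P = z := hP
  -- coefficients
  have hc : ∀ i, ∃ a b : Polynomial k, b ≠ 0 ∧ ((P.coeff i : k⟮t⟯) : L) * Polynomial.aeval t b = Polynomial.aeval t a := by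
    intro i
    obtain ⟨a, b, hab⟩ := (IntermediateField.mem_adjoin_simple_iff k _).1 (P.coeff i).2
    by_cases hb : Polynomial.aeval t b = 0
    · refine ⟨0, 1, one_ne_zero, ?_⟩
      rw [hab, hb, div_zero, zero_mul, map_zero]
    · refine ⟨a, b, fun h0 => hb (by rw [h0, map_zero]), ?_⟩
      rw [hab, div_mul_cancel₀ _ hb]
  choose a b hb hab using hc
  obtain ⟨N, hN⟩ : ∃ N, N = P.natDegree := ⟨_, rfl⟩
  obtain ⟨D, hD⟩ : ∃ D, D = ∏ i ∈ Finset.range (N + 1), b i := ⟨_, rfl⟩
  have hD0 : D ≠ 0 := by
    rw [hD]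
    exact Finset.prod_ne_zero_iff.2 fun i _ => hb i
  obtain ⟨B, hB⟩ : ∃ B : Polynomial (Polynomial k), B = ∑ i ∈ Finset.range (N + 1),
      Polynomial.C (a i * ∏ j ∈ (Finset.range (N + 1)).erase i, b j) * Polynomial.X ^ i := ⟨_, rfl⟩
  have h1 : z * Polynomial.aeval t D = evp t y B := by
    rw [← hP', Polynomial.aeval_eq_sum_range, hB, map_sum, ← hN, Finset.sum_mul]
    refine Finset.sum_congr rfl fun i hi => ?_
    rw [map_mul, evp_C, map_pow, evp_X, map_mul, ← hab, hD, ← Finset.mul_prod_erase _ _ hi, map_mul, Algebra.smul_def]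
    show ((P.coeff i : k⟮t⟯) : L) * y ^ i * _ = _
    ring
  refine ⟨D, B %ₘ f, hD0, ?_, ?_⟩
  · have h4 := Polynomial.natDegree_modByMonic_lt B h.mon (by
      intro h5
      have h6 := h.deg
      have h7 := h.d1
      rw [h5, Polynomial.natDegree_one] at h6
      omega)
    rwa [h.deg] at h4
  · rw [h1]
    have h2 := congrArg (evp t y) (Polynomial.modByMonic_add_div B f)
    rw [map_add, map_mul, h.root, zero_mul, add_zero] at h2
    exact h2.symm

private theorem adj_top {k E : Type} [Field k] [Field E] [Algebra k E] {ξ η : E}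
    (hx : ξ ∈ IntermediateField.adjoin k {ξ, η}) (hy : η ∈ IntermediateField.adjoin k {ξ, η}) :
    IntermediateField.adjoin k ({⟨ξ, hx⟩, ⟨η, hy⟩} : Set (IntermediateField.adjoin k {ξ, η})) = ⊤ := by
  apply IntermediateField.lift_injective
  rw [IntermediateField.lift_adjoin, IntermediateField.lift_top, Set.image_pair]

/-- the model inside a given field -/
theorem mod_in {k E : Type} [Field k] [Field E] [Algebra k E] {G : MvPolynomial (Fin 2) k} {c d : ℕ}
    (hd : G.totalDegree ≤ d) (hi : Irreducible G) (hl : tpf d G (c : k) ≠ 0) {ξ η : E}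
    (h0 : MvPolynomial.aeval ![ξ, η] G = 0) (ht : Transcendental k (ξ + c * η)) :
    ∃ (x y : IntermediateField.adjoin k {ξ, η}) (f : Polynomial (Polynomial k)), (x : E) = ξ ∧ (y : E) = η ∧
      IntermediateField.adjoin k {x, y} = ⊤ ∧ MvPolynomial.aeval ![x, y] G = 0 ∧ Mod k (x + c * y) y d f := by
  let L := IntermediateField.adjoin k {ξ, η}
  let x : L := ⟨ξ, IntermediateField.subset_adjoin k {ξ, η} (Set.mem_insert ξ {η})⟩
  let y : L := ⟨η, IntermediateField.subset_adjoin k {ξ, η} (Set.mem_insert_of_mem ξ (Set.mem_singleton η))⟩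
  have hgen : IntermediateField.adjoin k {x, y} = ⊤ := adj_top x.2 y.2
  have hcomp : ∀ P : MvPolynomial (Fin 2) k, MvPolynomial.aeval ![ξ, η] P =
      ((MvPolynomial.aeval ![x, y] P : L) : E) := by
    intro P
    have h1 : (![ξ, η] : Fin 2 → E) = algebraMap L E ∘ ![x, y] := by
      funext i
      fin_cases i <;> rfl
    rw [h1, MvPolynomial.aeval_algebraMap_apply]
    rfl
  have h0' : MvPolynomial.aeval ![x, y] G = 0 := by
    apply Subtype.coe_injective
    exact (hcomp G).symm.trans h0
  have htT : ((x + c * y : L) : E) = ξ + c * η := by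
    simp [x, y]
  have ht' : Transcendental k (x + c * y : L) := by
    intro h1
    apply ht
    rw [← htT]
    exact h1.algebraMap (A := E)
  obtain ⟨f, hf, -⟩ := mdl hd hi hl hgen h0' ht'
  exact ⟨x, y, f, rfl, rfl, hgen, h0', hf⟩

private theorem isu {K K' : Type} [Field K] [Field K'] (φ : K →+* K') {P : MvPolynomial (Fin 2) K}
    (h : IsUnit (MvPolynomial.map φ P)) : IsUnit P := by
  rw [MvPolynomial.isUnit_iff] at h ⊢
  obtain ⟨h1, h2⟩ := h
  rw [MvPolynomial.coeff_map] at h1
  refine ⟨isUnit_iff_ne_zero.2 fun h0 => h1.ne_zero (by rw [h0, map_zero]), fun i hi => ?_⟩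
  have h3 := h2 i hi
  rw [MvPolynomial.coeff_map, isNilpotent_iff_eq_zero] at h3
  rw [isNilpotent_iff_eq_zero]
  exact (map_eq_zero_iff _ φ.injective).1 h3

/-- irreducibility descends -/
theorem irr_desc {K K' : Type} [Field K] [Field K'] (φ : K →+* K') {P : MvPolynomial (Fin 2) K}
    (h : Irreducible (MvPolynomial.map φ P)) : Irreducible P := by
  refine ⟨fun hu => h.not_isUnit (hu.map _), fun a b hab => ?_⟩
  rw [hab, map_mul] at h
  rcases h.isUnit_or_isUnit rfl with h1 | h1
  · exact Or.inl (isu φ h1)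
  · exact Or.inr (isu φ h1)

private theorem deg1 {K : Type} [Field K] {G : MvPolynomial (Fin 2) K} (h : Irreducible G) : 1 ≤ G.totalDegree := by
  by_contra hc
  have h0 : G.totalDegree = 0 := by omega
  rw [MvPolynomial.totalDegree_eq_zero_iff_eq_C] at h0
  by_cases ha : MvPolynomial.coeff 0 G = 0
  · rw [ha, MvPolynomial.C_0] at h0
    exact h.ne_zero h0
  · exact h.not_isUnit (by rw [h0]; exact (isUnit_iff_ne_zero.2 ha).map MvPolynomial.C)

/-- an element which is algebraic over a subfield of the algebraically closed field `K₀` is in `K₀` -/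
private theorem in_k0 {K₀ E : Type} [Field K₀] [IsAlgClosed K₀] [Field E] [Algebra K₀ E] {z : E}
    (hz : IsAlgebraic K₀ z) : ∃ w : K₀, algebraMap K₀ E w = z := by
  have h1 : Irreducible (minpoly K₀ z) := minpoly.irreducible hz.isIntegral
  exact minpoly.mem_range_of_degree_eq_one K₀ z (IsAlgClosed.degree_eq_one_of_irreducible K₀ h1)

private theorem w_gen {k K₀ E : Type} [Field k] [CharZero k] [Field K₀] [CharZero K₀] [IsAlgClosed K₀] [Field E] [IsAlgClosed E]
    [Algebra K₀ E] [Algebra k K₀] [Algebra k E] [IsScalarTower k K₀ E] {T : E} (hT : Transcendental K₀ T)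
    {G' : MvPolynomial (Fin 2) k} {c d : ℕ} (hd : G'.totalDegree ≤ d) (hd1 : 1 ≤ d)
    (hi : Irreducible (MvPolynomial.map (algebraMap k K₀) G')) (hl : tpf d G' (c : k) ≠ 0) :
    ∃ (L : Type) (_ : Field L) (_ : Algebra k L) (x y : L) (f : Polynomial (Polynomial k)),
      IntermediateField.adjoin k {x, y} = ⊤ ∧ MvPolynomial.aeval ![x, y] G' = 0 ∧ Mod k (x + c * y) y d f ∧
        RelCl k L := by
  classical
  have hi' : Irreducible G' := irr_desc _ hi
  have hdK : (MvPolynomial.map (algebraMap k K₀) G').totalDegree ≤ d :=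
    (Finset.sup_mono (MvPolynomial.support_map_subset (algebraMap k K₀) G')).trans hd
  have htpf : tpf d (MvPolynomial.map (algebraMap k K₀) G') (c : K₀) = algebraMap k K₀ (tpf d G' (c : k)) := by
    unfold tpf
    rw [map_sum]
    refine Finset.sum_congr rfl fun i _ => ?_
    rw [MvPolynomial.coeff_map, map_mul, map_pow, map_neg, map_natCast]
  have hlK : tpf d (MvPolynomial.map (algebraMap k K₀) G') (c : K₀) ≠ 0 := by
    rw [htpf]
    exact (map_ne_zero_iff _ (algebraMap k K₀).injective).2 hl
  -- the zero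
  obtain ⟨η, hη⟩ : ∃ η : E, evp T η (sbp c (MvPolynomial.map (algebraMap k K₀) G')) = 0 := by
    have h1 : ((sbp c (MvPolynomial.map (algebraMap k K₀) G')).map
        (Polynomial.aeval T : Polynomial K₀ →ₐ[K₀] E).toRingHom).coeff d ≠ 0 := by
      rw [Polynomial.coeff_map, sbp_top hdK]
      intro h2
      have h3 : algebraMap K₀ E (tpf d (MvPolynomial.map (algebraMap k K₀) G') (c : K₀)) = 0 := by
        rw [← h2]
        exact (Polynomial.aeval_C T _).symm
      exact hlK ((map_eq_zero_iff _ (algebraMap K₀ E).injective).1 h3)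
    have h2 : ((sbp c (MvPolynomial.map (algebraMap k K₀) G')).map
        (Polynomial.aeval T : Polynomial K₀ →ₐ[K₀] E).toRingHom).degree ≠ 0 := by
      intro h3
      have h4 := Polynomial.le_degree_of_ne_zero h1
      rw [h3] at h4
      have h5 : d ≤ 0 := by exact_mod_cast h4
      omega
    obtain ⟨η, hη⟩ := IsAlgClosed.exists_root _ h2
    refine ⟨η, ?_⟩
    rw [Polynomial.IsRoot.def, Polynomial.eval_map] at hη
    exact hη
  obtain ⟨ξ, hξ⟩ : ∃ ξ : E, ξ = T - c * η := ⟨_, rfl⟩
  have hξη : ξ + c * η = T := by rw [hξ, sub_add_cancel]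
  have hzK : MvPolynomial.aeval ![ξ, η] (MvPolynomial.map (algebraMap k K₀) G') = 0 := by
    rw [← sbp_evp c _ ξ η, hξη, hη]
  have hz : MvPolynomial.aeval ![ξ, η] G' = 0 := by
    rw [← hzK, MvPolynomial.aeval_map_algebraMap]
  have hTQ : Transcendental k T := fun h => hT (h.tower_top K₀)
  obtain ⟨x', y', f', hx', hy', hgen', -, hM'⟩ := mod_in hdK hi hlK hzK (by rw [hξη]; exact hT)
  obtain ⟨x, y, f, hx, hy, hgen, h0, hM⟩ := mod_in hd hi' hl hz (by rw [hξη]; exact hTQ)
  refine ⟨IntermediateField.adjoin k {ξ, η}, (IntermediateField.adjoin k {ξ, η}).toField,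
    (IntermediateField.adjoin k {ξ, η}).algebra', x, y, f, hgen, h0, hM, ?_⟩
  intro z hz
  have hzE : IsAlgebraic K₀ (z : E) := (hz.algebraMap (A := E)).tower_top K₀
  obtain ⟨w, hw⟩ := in_k0 hzE
  obtain ⟨D, A, hD, hA, hDA⟩ := mod_rep hM z
  obtain ⟨φ, hφ⟩ : ∃ φ : Polynomial k →+* Polynomial K₀, φ = Polynomial.mapRingHom (algebraMap k K₀) := ⟨_, rfl⟩
  obtain ⟨R, hR⟩ : ∃ R : Polynomial (Polynomial K₀), R = A.map φ -
    Polynomial.C (Polynomial.C w * D.map (algebraMap k K₀)) := ⟨_, rfl⟩
  -- values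
  have hev : ∀ p : Polynomial k, Polynomial.aeval T (p.map (algebraMap k K₀)) = Polynomial.aeval T p := fun p =>
    Polynomial.aeval_map_algebraMap K₀ T p
  have hevp : ∀ B : Polynomial (Polynomial k), evp (k := K₀) T η (B.map φ) = evp (k := k) T η B := by
    intro B
    unfold evp
    rw [Polynomial.coe_eval₂RingHom, Polynomial.coe_eval₂RingHom, Polynomial.eval₂_map]
    congr 1
    refine RingHom.ext fun p => ?_
    rw [hφ]
    exact hev p
  have hR0 : evp (k := K₀) T η R = 0 := by
    have h1 : (z : E) * Polynomial.aeval T D = evp (k := k) T η A := by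
      have h2 := congrArg (fun u : IntermediateField.adjoin k {ξ, η} => (u : E)) hDA
      have h3 : ((x + c * y : IntermediateField.adjoin k {ξ, η}) : E) = T := by
        have e1 : ((x + c * y : IntermediateField.adjoin k {ξ, η}) : E) = (x : E) + c * (y : E) := by
          push_cast
          rfl
        rw [e1, hx, hy, hξη]
      have h4 : ((Polynomial.aeval (x + c * y) D : IntermediateField.adjoin k {ξ, η}) : E) =
          Polynomial.aeval T D := by
        rw [← h3]
        exact (Polynomial.aeval_algebraMap_apply E (x + c * y) D).symm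
      have h5 : ((evp (x + c * y) y A : IntermediateField.adjoin k {ξ, η}) : E) = evp (k := k) T η A := by
        unfold evp
        rw [Polynomial.coe_eval₂RingHom, Polynomial.coe_eval₂RingHom]
        have h6 := Polynomial.hom_eval₂ A (Polynomial.aeval (x + c * y) :
          Polynomial k →ₐ[k] IntermediateField.adjoin k {ξ, η}).toRingHom
          (algebraMap (IntermediateField.adjoin k {ξ, η}) E) y
        have h7 : (algebraMap (IntermediateField.adjoin k {ξ, η}) E) y = η := hy
        have h8 : (algebraMap (IntermediateField.adjoin k {ξ, η}) E).comp (Polynomial.aeval (x + c * y) :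
          Polynomial k →ₐ[k] IntermediateField.adjoin k {ξ, η}).toRingHom =
            (Polynomial.aeval T : Polynomial k →ₐ[k] E).toRingHom := by
          refine RingHom.ext fun p => ?_
          show ((Polynomial.aeval (x + c * y) p : IntermediateField.adjoin k {ξ, η}) : E) = Polynomial.aeval T p
          rw [← h3]
          exact (Polynomial.aeval_algebraMap_apply E (x + c * y) p).symm
        rw [h7, h8] at h6
        exact h6
      rw [← h4, ← h5, ← h2]
      rfl
    rw [hR, map_sub, hevp, evp_C, map_mul, Polynomial.aeval_C, hev, hw, ← h1, sub_self]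
  have hRd : R.natDegree < d := by
    rw [hR]
    refine lt_of_le_of_lt (Polynomial.natDegree_sub_le _ _) (max_lt ?_ ?_)
    · exact lt_of_le_of_lt Polynomial.natDegree_map_le hA
    · rw [Polynomial.natDegree_C]
      omega
  have hR0' : evp (x' + c * y') y' R = 0 := by
    apply Subtype.coe_injective
    show ((evp (x' + c * y') y' R : IntermediateField.adjoin K₀ {ξ, η}) : E) = 0
    have h3 : ((x' + c * y' : IntermediateField.adjoin K₀ {ξ, η}) : E) = T := by
      have e1 : ((x' + c * y' : IntermediateField.adjoin K₀ {ξ, η}) : E) = (x' : E) + c * (y' : E) := by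
        push_cast
        rfl
      rw [e1, hx', hy', hξη]
    have h5 : ((evp (x' + c * y') y' R : IntermediateField.adjoin K₀ {ξ, η}) : E) = evp (k := K₀) T η R := by
      unfold evp
      rw [Polynomial.coe_eval₂RingHom, Polynomial.coe_eval₂RingHom]
      have h6 := Polynomial.hom_eval₂ R (Polynomial.aeval (x' + c * y') :
        Polynomial K₀ →ₐ[K₀] IntermediateField.adjoin K₀ {ξ, η}).toRingHom
        (algebraMap (IntermediateField.adjoin K₀ {ξ, η}) E) y'
      have h7 : (algebraMap (IntermediateField.adjoin K₀ {ξ, η}) E) y' = η := hy'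
      have h8 : (algebraMap (IntermediateField.adjoin K₀ {ξ, η}) E).comp (Polynomial.aeval (x' + c * y') :
        Polynomial K₀ →ₐ[K₀] IntermediateField.adjoin K₀ {ξ, η}).toRingHom =
          (Polynomial.aeval T : Polynomial K₀ →ₐ[K₀] E).toRingHom := by
        refine RingHom.ext fun p => ?_
        show ((Polynomial.aeval (x' + c * y') p : IntermediateField.adjoin K₀ {ξ, η}) : E) = Polynomial.aeval T p
        rw [← h3]
        exact (Polynomial.aeval_algebraMap_apply E (x' + c * y') p).symm
      rw [h7, h8] at h6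
      exact h6
    rw [h5, hR0]
  have hRz := mod_zero hM' hRd hR0'
  -- the coefficient
  have h1 : (A.coeff 0).map (algebraMap k K₀) = Polynomial.C w * D.map (algebraMap k K₀) := by
    have h2 := congrArg (fun u => Polynomial.coeff u 0) hRz
    simp only [hR, Polynomial.coeff_sub, Polynomial.coeff_map, Polynomial.coeff_C_zero, Polynomial.coeff_zero] at h2
    rw [sub_eq_zero, hφ] at h2
    exact h2
  have h2 := congrArg (fun u => Polynomial.coeff u D.natDegree) h1
  simp only [Polynomial.coeff_map, Polynomial.coeff_C_mul] at h2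
  have h3 : D.coeff D.natDegree ≠ 0 := by
    rw [Polynomial.coeff_natDegree]
    exact Polynomial.leadingCoeff_ne_zero.2 hD
  have h4 : w = algebraMap k K₀ ((A.coeff 0).coeff D.natDegree / D.coeff D.natDegree) := by
    rw [map_div₀, h2, mul_div_cancel_right₀ _ ((map_ne_zero_iff _ (algebraMap k K₀).injective).2 h3)]
  refine ⟨(A.coeff 0).coeff D.natDegree / D.coeff D.natDegree, ?_⟩
  apply Subtype.coe_injective
  show algebraMap k E _ = (z : E)
  rw [← hw, h4]
  exact IsScalarTower.algebraMap_apply k K₀ E _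

private theorem t_tr (K₀ : Type) [Field K₀] : Transcendental K₀ (algebraMap (RatFunc K₀)
    (AlgebraicClosure (RatFunc K₀)) RatFunc.X) := by
  rw [transcendental_iff]
  intro p hp
  have h : (Polynomial.aeval (algebraMap (RatFunc K₀) (AlgebraicClosure (RatFunc K₀)) RatFunc.X) :
      Polynomial K₀ →ₐ[K₀] AlgebraicClosure (RatFunc K₀)).toRingHom =
      (algebraMap (RatFunc K₀) (AlgebraicClosure (RatFunc K₀))).comp
        (algebraMap (Polynomial K₀) (RatFunc K₀)) := by
    refine Polynomial.ringHom_ext' ?_ ?_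
    · refine RingHom.ext fun a => ?_
      show Polynomial.aeval _ (Polynomial.C a) = algebraMap (RatFunc K₀) (AlgebraicClosure (RatFunc K₀))
        (algebraMap (Polynomial K₀) (RatFunc K₀) (Polynomial.C a))
      rw [Polynomial.aeval_C]
      rfl
    · show Polynomial.aeval _ Polynomial.X = algebraMap (RatFunc K₀) (AlgebraicClosure (RatFunc K₀))
        (algebraMap (Polynomial K₀) (RatFunc K₀) Polynomial.X)
      rw [Polynomial.aeval_X, RatFunc.algebraMap_X]
  have h1 : algebraMap (RatFunc K₀) (AlgebraicClosure (RatFunc K₀)) (algebraMap (Polynomial K₀) (RatFunc K₀) p) = 0 := by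
    rw [← hp]
    exact (congrArg (fun z => z p) h).symm
  have h2 := (map_eq_zero_iff _ (algebraMap (RatFunc K₀) (AlgebraicClosure (RatFunc K₀))).injective).1 h1
  exact (map_eq_zero_iff _ (RatFunc.algebraMap_injective K₀)).1 h2

/-- change of the instance -/
private theorem w_conv {G : MvPolynomial (Fin 2) ℤ} {d c : ℕ} (gd : G.totalDegree = d) (d1 : 1 ≤ d)
    (ir : Irreducible (MvPolynomial.map (Int.castRingHom ℚ) G)) (cd : c ≤ d)
    (ct : tpf d (MvPolynomial.map (Int.castRingHom ℚ) G) (c : ℚ) ≠ 0) (L : Type) [Field L] [inst : Algebra ℚ L]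
    (x y : L) (f : Polynomial (Polynomial ℚ)) (hgen : IntermediateField.adjoin ℚ {x, y} = ⊤)
    (h0 : MvPolynomial.aeval ![x, y] (MvPolynomial.map (Int.castRingHom ℚ) G) = 0)
    (hM : Mod ℚ (x + c * y) y d f) (hr : RelCl ℚ L) :
    ∃ (L : Type) (_ : Field L) (_ : CharZero L) (x y : L) (d c : ℕ) (f : Polynomial (Polynomial ℚ)),
      Wq G x y d c f := by
  have hc : CharZero L := algebraRat.charZero L
  have hi : inst = DivisionRing.toRatAlgebra := Subsingleton.elim _ _
  subst hi
  have h1 : MvPolynomial.eval₂ (Int.castRingHom L) ![x, y] G = 0 := by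
    rw [← h0, MvPolynomial.aeval_def, MvPolynomial.eval₂_map]
    congr 1
    exact Subsingleton.elim _ _
  have hd' : (MvPolynomial.map (Int.castRingHom ℚ) G).totalDegree ≤ d := by
    rw [← gd]
    exact Finset.sup_mono (MvPolynomial.support_map_subset (Int.castRingHom ℚ) G)
  have hcx : algebraMap ℚ L (c : ℚ) = (c : L) := map_natCast _ c
  have hx := cor_x hd' ct h0
  have hy := cor_y hd' ct h0
  rw [hcx] at hx hy
  obtain ⟨hf1, hf2⟩ := mod_fin hM
  exact ⟨L, inferInstance, hc, x, y, d, c, f,
    { gd := gd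
      d1 := d1
      ir := ir
      z := h0
      z' := h1
      gen := hgen
      cd := cd
      ct := ct
      md := hM
      ff := ⟨hM.tr, hf1⟩
      fin := hf2
      ix := hx
      iy := hy
      rc := hr }⟩

/-- THE WORLD OVER `ℚ` -/
theorem wq_ex {K₀ : Type} [Field K₀] [CharZero K₀] [IsAlgClosed K₀] {G : MvPolynomial (Fin 2) ℤ}
    (h : Irreducible (MvPolynomial.map (Int.castRingHom K₀) G)) :
    ∃ (L : Type) (_ : Field L) (_ : CharZero L) (x y : L) (d c : ℕ) (f : Polynomial (Polynomial ℚ)),
      Wq G x y d c f := by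
  have hmap : MvPolynomial.map (Int.castRingHom K₀) G =
      MvPolynomial.map (algebraMap ℚ K₀) (MvPolynomial.map (Int.castRingHom ℚ) G) := by
    rw [MvPolynomial.map_map]
    have h1 : Int.castRingHom K₀ = (algebraMap ℚ K₀).comp (Int.castRingHom ℚ) := Subsingleton.elim _ _
    rw [← h1]
  rw [hmap] at h
  have ir := irr_desc _ h
  have hdeg : (MvPolynomial.map (Int.castRingHom ℚ) G).totalDegree = G.totalDegree := by
    refine le_antisymm (Finset.sup_mono (MvPolynomial.support_map_subset (Int.castRingHom ℚ) G)) ?_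
    refine Finset.sup_mono ?_
    intro m hm
    rw [MvPolynomial.mem_support_iff] at hm ⊢
    rw [MvPolynomial.coeff_map]
    intro h0
    exact hm (Int.cast_injective (h0.trans Int.cast_zero.symm))
  obtain ⟨d, hd⟩ : ∃ d, G.totalDegree = d := ⟨_, rfl⟩
  obtain ⟨c, cd, ct⟩ := cor_ex (hdeg.trans hd) ir.ne_zero
  have d1 : 1 ≤ d := by
    rw [← hd, ← hdeg]
    exact deg1 ir
  have hst : IsScalarTower ℚ K₀ (AlgebraicClosure (RatFunc K₀)) :=
    IsScalarTower.of_algebraMap_eq fun r => by
      have h1 : (algebraMap K₀ (AlgebraicClosure (RatFunc K₀))).comp (algebraMap ℚ K₀) =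
        algebraMap ℚ (AlgebraicClosure (RatFunc K₀)) := Subsingleton.elim _ _
      exact (congrArg (fun φ => φ r) h1).symm
  obtain ⟨L, i1, i2, x, y, f, h1, h2, h3, h4⟩ := w_gen (t_tr K₀) (hdeg.trans hd).le d1 h ct
  exact w_conv hd d1 ir cd ct L x y f h1 h2 h3 h4

end Pool.Agent.H12.SF2
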